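import Pool.Agent.Work.MP_218513_lc.CertFinal

/-!
Certificates by equations of degree at most three over the field with two elements can be replaced by
parity certificates, for Boolean functions with few nonzero Fourier coefficients.
-/

set_option autoImplicit false

namespace Pool.Agent.Results.MP_218513_lc.CubicCertificates

open Pool.Agent.XLR

theorem result :
    (∀ (n k : ℕ) (f : (Fin n → Bool) → Bool) (x : Fin n → Bool), CubicCert f x k →
      ParityCert f x (11 * k * (2 * (k + (Nat.log 2 (sps f) + 1)) + 3))) ∧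
    (∀ (n k : ℕ) (f : (Fin n → Bool) → Bool) (b : Bool), (∀ x, f x = b → CubicCert f x k) →
      DTle ((Nat.log 2 (sps f) + 1) * (11 * k * (2 * (k + (Nat.log 2 (sps f) + 1)) + 5))) f) ∧
    ((∃ C c : ℕ, ∀ (n : ℕ) (f : (Fin n → Bool) → Bool), DTle (C * (Nat.log 2 (sps f) + 1) ^ c) f) ↔
      (∃ C c : ℕ, ∀ (n : ℕ) (f : (Fin n → Bool) → Bool), ∃ (k : ℕ) (x : Fin n → Bool),
        k ≤ C * (Nat.log 2 (sps f) + 1) ^ c ∧ CubicCert f x k)) :=
  ⟨fun _ _ f x h => parityCert_of_cubicCert f x h, fun _ _ f b h => DTle_of_cubicCert f b h, xlr_iff⟩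

end Pool.Agent.Results.MP_218513_lc.CubicCertificates
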