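import Pool.Agent.Work.MP_218513_lc.FlatMain

/-!
Parity decision trees for Boolean functions with flat spectrum and small density.
-/

set_option autoImplicit false

namespace Pool.Agent.Results.MP_218513_lc.FlatSpectrum

open Pool.Agent.XLR

/-- The Fourier coefficient `2^(-n) ∑_x f(x) χ_S(x)`. -/
noncomputable def fhat {n : ℕ} (f : (Fin n → Bool) → Bool) (S : Finset (Fin n)) : ℝ :=
  (∑ x : Fin n → Bool, (if f x then (1 : ℝ) else 0) *
    (-1) ^ (S.filter (fun i => x i = true)).card) / 2 ^ n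

/-- If all Fourier coefficients of `f` at nonempty sets are `0` or `± c` and
`2^24 fhat(∅)^6 ≤ c^5`, then a parity decision tree of height at most `L (L + 1) / 2`,
`L = ⌊log₂ sps f⌋`, computes `f`. -/
theorem result (n : ℕ) (f : (Fin n → Bool) → Bool) (c : ℝ)
    (hflat : ∀ S : Finset (Fin n), S ≠ ∅ → fhat f S = 0 ∨ |fhat f S| = c)
    (hsmall : 2 ^ 24 * fhat f ∅ ^ 6 ≤ c ^ 5) :
    DTle (Nat.log 2 (sps f) * (Nat.log 2 (sps f) + 1) / 2) f :=
  flat_tree_real f c hflat hsmall

end Pool.Agent.Results.MP_218513_lc.FlatSpectrum
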