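import Pool.Agent.Work.MP_218513_lc.SY.FI

/-!
The XOR log-rank conjecture for isomorphism invariant properties of finite structures with a fixed
number of sorts and relations of bounded arity: for Boolean functions of `N` variables that are invariant under a product of
symmetric groups `Sym (n 0) × ... × Sym (n (p - 1))` acting on the variables with supports of at most
`k` points of every sort.

Graph properties are the case `p = 1`, `k = 2`, `R.card = 1`; see `graph_main` in
`Pool/Agent/Work/MP_218513_lc/SY/AG.lean`, and for properties of relational structures `rel_main` in `AR.lean`.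
-/

set_option autoImplicit false

namespace Pool.Agent.Results.MP_218513_lc.IsomorphismInvariant

open Pool.Agent.XLR

/-- Let `f` be invariant under the action `act` of `∏ i, Sym (n i)` on its variables, for which every variable
`x` is fixed by all `g` that fix at most `k` given points of every sort (the sets `A i`), and let `R` meet all
orbits. Put `L = ⌊log₂ sps f⌋`.
(1) For every sort `i` with more than `8 k (L + 2)` points, `f x` depends only on the parities of the numbers of
true variables in the orbits of `Sym (n i)` on the variables.
(2) A parity decision tree of height at most `|R| (8 k (L + 2)) ^ (k p)` computes `f`. -/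
theorem result {p N k : ℕ} {n : Fin p → ℕ} (hk : 1 ≤ k)
    (act : ((i : Fin p) → Equiv.Perm (Fin (n i))) →* Equiv.Perm (Fin N))
    (hsupp : ∀ x : Fin N, ∃ A : (i : Fin p) → Finset (Fin (n i)), (∀ i, (A i).card ≤ k) ∧
      ∀ g, (∀ i, ∀ v ∈ A i, g i v = v) → act g x = x)
    (R : Finset (Fin N)) (horb : ∀ x, ∃ y ∈ R, ∃ g, act g y = x)
    (f : (Fin N → Bool) → Bool) (hf : ∀ g x, f (fun a => x (act g a)) = f x) :
    (∀ i, 8 * k * (Nat.log 2 (sps f) + 2) < n i → ∀ x y : Fin N → Bool,
      (∀ a, Even (Finset.univ.filter fun b =>
        (∃ π : Equiv.Perm (Fin (n i)), act (Pi.mulSingle i π) a = b) ∧ x b ≠ y b).card) →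
        f x = f y) ∧
    DTle (R.card * (8 * k * (Nat.log 2 (sps f) + 2)) ^ (k * p)) f := by
  obtain ⟨h1, h2⟩ := SY.sym_main hk act hsupp R horb f hf
  refine ⟨fun i hi x y hxy => h1 i hi x y fun a => ?_, h2⟩
  convert hxy a

end Pool.Agent.Results.MP_218513_lc.IsomorphismInvariant
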