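import Pool.Agent.Work.MP_218513_lc.Final

/-!
Parity decision trees for Boolean functions of low degree over the field with two elements and small
spectral norm (or few nonzero Fourier coefficients).
-/

set_option autoImplicit false

namespace Pool.Agent.Results.MP_218513_lc.LowDegree

open Pool.Agent.XLR

theorem result :
    (∀ (n d Λ : ℕ) (f : (Fin n → Bool) → Bool), 1 ≤ Λ → DegLe f d → snorm f ^ 2 ≤ 2 ^ Λ * 4 ^ n →
      DTle (d * 8 ^ (d - 1) * (Λ * (Nat.log 2 Λ + 1))) f) ∧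
    (∀ (n d : ℕ) (f : (Fin n → Bool) → Bool), DegLe f d →
      DTle (d * 8 ^ (d - 1) * ((Nat.log 2 (sps f) + 1) * (Nat.log 2 (Nat.log 2 (sps f) + 1) + 1))) f) ∧
    (∀ A : ℕ, ∃ C : ℕ, ∀ (n d : ℕ) (f : (Fin n → Bool) → Bool), DegLe f d →
      d ≤ A * (Nat.log 2 (Nat.log 2 (sps f) + 1) + 1) → DTle (C * (Nat.log 2 (sps f) + 1) ^ C) f) :=
  ⟨fun _ _ _ f h1 h2 h3 => low_degree_norm h1 f h2 h3, fun _ _ f h => low_degree f h, low_degree_poly⟩

end Pool.Agent.Results.MP_218513_lc.LowDegree
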